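import Pool.Agent.Lib.MP_d55432_al.DenseMain
import Pool.Agent.Lib.MP_d55432_al.Homog
import Pool.Agent.Lib.MP_d55432_al.Multilin
import Pool.Agent.Lib.MP_d55432_al.GS.H87.Main

/-!
# Images of homogeneous, multilinear and arbitrary Lie polynomials on a simple Lie algebra

Let `L` be a finite-dimensional simple Lie algebra over an algebraically closed field of
characteristic zero. A subset of `L` is the image of a homogeneous Lie polynomial if and only if
it contains zero, is a cone, is stable under all automorphisms, is constructible, and is a Zariski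
dense part of the range of some homogeneous polynomial map `L ^ m → L` of positive degree which is
equivariant under all automorphisms of `L`. In particular the ranges of these maps are images, and
the Zariski dense images are exactly the Zariski dense constructible `Aut L`-stable cones.
The images of multilinear Lie polynomials are exactly the ranges of the multilinear maps
`L ^ m → L`, `m ≥ 1`, which are equivariant under all automorphisms of `L`. Moreover, in the image
of an arbitrary Lie polynomial the ad-semisimple elements are Zariski dense.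

This puts together the earlier theorems `DenseImages`, `HomogeneousImages` and `MultilinearImages`
(helper48) and the theorem on semisimple values (helper87).
-/

namespace Pool.Agent.Results.MP_d55432_al.ConstructibleCones

open Pool.Agent.Lib.MP_d55432_al

theorem result {K : Type*} [Field K] [IsAlgClosed K] [CharZero K] {L : Type*} [LieRing L]
    [LieAlgebra K L] [FiniteDimensional K L] [LieAlgebra.IsSimple K L] (S : Set L) :
    ((∃ (m d : ℕ) (p : FreeLieAlgebra K (Fin m)), IsHomogeneousLie d p ∧ S = lieImage L p) ↔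
      ((0 : L) ∈ S ∧ (∀ (t : K), ∀ x ∈ S, t • x ∈ S) ∧ (∀ φ : L ≃ₗ⁅K⁆ L, ∀ x ∈ S, φ x ∈ S) ∧
        BoolComb (PolyOn K L : Set (L → K)) S ∧
        ∃ (m b : ℕ) (f : (Fin m → L) → L), 0 < b ∧ IsPolyMap K f ∧ IsAutEquivariant K f ∧
          (∀ (t : K) (a : Fin m → L), f (t • a) = t ^ b • f a) ∧ S ⊆ Set.range f ∧
          ∀ g ∈ PolyOn K L, (∀ y ∈ S, g y = 0) → ∀ y ∈ Set.range f, g y = 0)) ∧
    ((∃ (m b : ℕ) (f : (Fin m → L) → L), 0 < b ∧ IsPolyMap K f ∧ IsAutEquivariant K f ∧
        (∀ (t : K) (a : Fin m → L), f (t • a) = t ^ b • f a) ∧ S = Set.range f) →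
      ∃ (m d : ℕ) (p : FreeLieAlgebra K (Fin m)), IsHomogeneousLie d p ∧ S = lieImage L p) ∧
    ((∀ g ∈ PolyOn K L, (∀ y ∈ S, g y = 0) → ∀ y, g y = 0) →
      ((∃ (m d : ℕ) (p : FreeLieAlgebra K (Fin m)), IsHomogeneousLie d p ∧ S = lieImage L p) ↔
        ((0 : L) ∈ S ∧ (∀ (t : K), ∀ x ∈ S, t • x ∈ S) ∧ (∀ φ : L ≃ₗ⁅K⁆ L, ∀ x ∈ S, φ x ∈ S) ∧
          BoolComb (PolyOn K L : Set (L → K)) S))) ∧
    ((∃ (m : ℕ) (p : FreeLieAlgebra K (Fin m)), IsMultilinearLie p ∧ S = lieImage L p) ↔
      ∃ (m : ℕ) (f : MultilinearMap K (fun _ : Fin m => L) L), 0 < m ∧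
        IsAutEquivariant K (f : (Fin m → L) → L) ∧ S = Set.range f) ∧
    ((∃ (m : ℕ) (p : FreeLieAlgebra K (Fin m)), S = lieImage L p) →
      ∀ g ∈ PolyOn K L, (∀ y ∈ S, (LieAlgebra.ad K L y).IsSemisimple → g y = 0) →
        ∀ y ∈ S, g y = 0) := by
  refine ⟨?_, fun h => (homogeneous_images S).2 h, fun hS => dense_images_iff S hS,
    multilinear_images S, ?_⟩
  swap
  · rintro ⟨m, p, rfl⟩ g hg h y ⟨a, rfl⟩
    exact GS.closure_semisimple (fun a : Fin m → L => FreeLieAlgebra.lift K a p)
      (isPolyMap_lift p) (isAutEquivariant_lift p) g hg (fun b hb => h _ ⟨b, rfl⟩ hb) a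
  constructor
  · intro h
    obtain ⟨h0, h1, h2, h3, m, d, p, hp, h4, h5⟩ := (images_iff S).1 h
    obtain ⟨n, b, f, hb, hf, hf', hf'', hpf⟩ := (homogeneous_images (lieImage L p)).1
      ⟨m, d, p, hp, rfl⟩
    refine ⟨h0, h1, h2, h3, n, b, f, hb, hf, hf', hf'', ?_, ?_⟩
    · rw [← hpf]
      exact h4
    · rw [← hpf]
      exact h5
  · rintro ⟨h0, h1, h2, h3, n, b, f, hb, hf, hf', hf'', h4, h5⟩
    obtain ⟨m, d, p, hp, hpf⟩ := (homogeneous_images (Set.range f)).2
      ⟨n, b, f, hb, hf, hf', hf'', rfl⟩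
    refine (images_iff S).2 ⟨h0, h1, h2, h3, m, d, p, hp, ?_, ?_⟩
    · rw [← hpf]
      exact h4
    · rw [← hpf]
      exact h5

end Pool.Agent.Results.MP_d55432_al.ConstructibleCones
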