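import Pool.Agent.Lib.MP_d55432_al.G2.H93.Final

/-!
# Images of homogeneous Lie polynomials on the simple Lie algebra of type `G₂`

Let `K` be an algebraically closed field of characteristic zero. The Lie algebra `gTwo K` of type
`G₂` is the algebra of derivations of the space `K ^ 7` of trace zero split octonions (in Zorn
coordinates) with the commutator `comm`. The theorem states that `gTwo K` is simple of dimension
14, determines all images of homogeneous Lie polynomials on it, and gives a closed cone, not a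
linear subspace, which is the image of a multilinear Lie polynomial.
-/

namespace Pool.Agent.Results.MP_d55432_al.GTwo

open Matrix Pool.Agent.Lib.MP_d55432_al

attribute [local instance 100] LieRing.ofAssociativeRing

/-- The commutator `x y - y x` of two trace zero split octonions in Zorn coordinates `(a; u; v)`:
coordinate `0` is the scalar `a`, coordinates `1, 2, 3` are the vector `u` and coordinates
`4, 5, 6` are the vector `v`. -/
def comm {A : Type*} [CommRing A] (x y : Fin 7 → A) : Fin 7 → A := ![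
  x 1 * y 4 + x 2 * y 5 + x 3 * y 6 - (x 4 * y 1 + x 5 * y 2 + x 6 * y 3),
  2 * (x 0 * y 1 - y 0 * x 1 - (x 5 * y 6 - x 6 * y 5)),
  2 * (x 0 * y 2 - y 0 * x 2 - (x 6 * y 4 - x 4 * y 6)),
  2 * (x 0 * y 3 - y 0 * x 3 - (x 4 * y 5 - x 5 * y 4)),
  2 * (y 0 * x 4 - x 0 * y 4 + (x 2 * y 3 - x 3 * y 2)),
  2 * (y 0 * x 5 - x 0 * y 5 + (x 3 * y 1 - x 1 * y 3)),
  2 * (y 0 * x 6 - x 0 * y 6 + (x 1 * y 2 - x 2 * y 1))]

/-- A matrix is a derivation of `comm`. -/
def IsDer {K : Type*} [Field K] (X : Matrix (Fin 7) (Fin 7) K) : Prop :=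
  ∀ x y : Fin 7 → K, X *ᵥ comm x y = comm (X *ᵥ x) y + comm x (X *ᵥ y)

theorem isDer_add {K : Type*} [Field K] {X Y : Matrix (Fin 7) (Fin 7) K} (hX : IsDer X)
    (hY : IsDer Y) : IsDer (X + Y) := (G2.g2 K).add_mem hX hY

theorem isDer_zero {K : Type*} [Field K] : IsDer (0 : Matrix (Fin 7) (Fin 7) K) :=
  (G2.g2 K).zero_mem

theorem isDer_smul {K : Type*} [Field K] (c : K) {X : Matrix (Fin 7) (Fin 7) K} (hX : IsDer X) :
    IsDer (c • X) := (G2.g2 K).smul_mem c hX

theorem isDer_lie {K : Type*} [Field K] {X Y : Matrix (Fin 7) (Fin 7) K} (hX : IsDer X)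
    (hY : IsDer Y) : IsDer (X * Y - Y * X) := (G2.g2 K).lie_mem hX hY

/-- The Lie algebra of type `G₂`: the matrices which are derivations of `comm`. -/
def gTwo (K : Type*) [Field K] : LieSubalgebra K (Matrix (Fin 7) (Fin 7) K) where
  carrier := {X | IsDer X}
  add_mem' := isDer_add
  zero_mem' := isDer_zero
  smul_mem' c _ := isDer_smul c
  lie_mem' := isDer_lie

/-- The set attached to `(l, m)` and a set `T` of ranks: zero, the elements which are similar to a
nonzero multiple of the diagonal matrix with entries `0, l, m, -l - m, -l, -m, l + m`, and the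
nonzero nilpotent `X` such that the rank of `X ^ 2` is in `T`. -/
def raySet (K : Type*) [Field K] (l m : K) (T : Set ℕ) : Set (gTwo K) :=
  {X | X = 0 ∨
    (∃ (s : K) (P Q : Matrix (Fin 7) (Fin 7) K), s ≠ 0 ∧ P * Q = 1 ∧
      (X : Matrix (Fin 7) (Fin 7) K) =
        P * (s • Matrix.diagonal ![0, l, m, -l - m, -l, -m, l + m]) * Q) ∨
    (X ≠ 0 ∧ (X : Matrix (Fin 7) (Fin 7) K) ^ 7 = 0 ∧
      ((X : Matrix (Fin 7) (Fin 7) K) * (X : Matrix (Fin 7) (Fin 7) K)).rank ∈ T)}

/-- A subset of `L` is Zariski dense if a polynomial function on `L` which vanishes on it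
vanishes on `L`. -/
def IsZariskiDense (K : Type*) [Field K] {L : Type*} [LieRing L] [LieAlgebra K L] (S : Set L) :
    Prop :=
  ∀ g ∈ PolyOn K L, (∀ y ∈ S, g y = 0) → ∀ y, g y = 0

theorem result {K : Type*} [Field K] [IsAlgClosed K] [CharZero K] :
    (LieAlgebra.IsSimple K (gTwo K) ∧ Module.finrank K (gTwo K) = 14) ∧
    (∀ S : Set (gTwo K),
      (∃ (m d : ℕ) (p : FreeLieAlgebra K (Fin m)), IsHomogeneousLie d p ∧
        S = lieImage (gTwo K) p) ↔
      (S = {0} ∨
        (∃ (l m : K) (T : Set ℕ), (l ≠ 0 ∨ m ≠ 0) ∧ T ⊆ {0, 1, 2, 5} ∧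
          (5 ∈ T → l * m * (l + m) * (l - m) * (2 * l + m) * (l + 2 * m) ≠ 0) ∧
          S = raySet K l m T) ∨
        ((0 : gTwo K) ∈ S ∧ (∀ (t : K), ∀ x ∈ S, t • x ∈ S) ∧
          (∀ φ : gTwo K ≃ₗ⁅K⁆ gTwo K, ∀ x ∈ S, φ x ∈ S) ∧
          BoolComb (PolyOn K (gTwo K) : Set (gTwo K → K)) S ∧ IsZariskiDense K S))) ∧
    (∃ (m : ℕ) (p : FreeLieAlgebra K (Fin m)), IsMultilinearLie p ∧
      raySet K 1 1 {0, 1, 2} = lieImage (gTwo K) p) :=
  G2.H93.final (gTwo K) rfl

end Pool.Agent.Results.MP_d55432_al.GTwo
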