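import Pool.Agent.Lib.MP_d55432_al.SIX.H47.All

/-!
# Images of Lie polynomials on `so₆`

Let `K` be an algebraically closed field of characteristic zero and let `L = so₆(K)` be the Lie
algebra of skew symmetric `6 × 6` matrices. Let `Z k` be the set of elements of rank at most `2 k`,
so that `Z 0 = {0}` and `Z 3 = L`. The theorem says:

* a subset `S` of `L` is the image of a homogeneous Lie polynomial if and only if it is a
  constructible cone with `0 ∈ S` which is stable under all automorphisms of `L` and Zariski dense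
  in `Z k` for some `k ≤ 3`; the sets `Z k` themselves are such images;
* the image of every Lie polynomial is Zariski dense in `Z k` for some `k ≤ 3`;
* the images of arbitrary Lie polynomials which are contained in `Z 1` are exactly `{0}` and the
  four sets `rankTwoSet K T`, `T ⊆ {0, 1}`, of the elements `x` of rank at most 2 such that `x = 0`
  or the rank of `x ^ 2` is in `T ∪ {2}`.

Joint work of helpers 12, 16, 23, 30, 32, 47, 57, 65, 66, 68, 70, 74, 87, 93 and 97 (the modules in
`Lib/MP_d55432_al/SIX`), on top of `ConstructibleCones` (helper48).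
-/

namespace Pool.Agent.Results.MP_d55432_al.OrthogonalSix

open Pool.Agent.Lib.MP_d55432_al

/-- The Lie algebra of skew symmetric `6 × 6` matrices. -/
abbrev So6 (K : Type*) [Field K] := LieAlgebra.Orthogonal.so (Fin 6) K

/-- The elements of rank at most `r`. -/
def rankSet (K : Type*) [Field K] (r : ℕ) : Set (So6 K) :=
  {x | (x : Matrix (Fin 6) (Fin 6) K).rank ≤ r}

/-- The elements `x` of rank at most 2 such that `x = 0` or the rank of `x ^ 2` is in
`T ∪ {2}`. -/
def rankTwoSet (K : Type*) [Field K] (T : Set ℕ) : Set (So6 K) :=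
  {x | (x : Matrix (Fin 6) (Fin 6) K).rank ≤ 2 ∧ (x = 0 ∨
    ((x : Matrix (Fin 6) (Fin 6) K) * (x : Matrix (Fin 6) (Fin 6) K)).rank ∈ T ∪ {2})}

/-- `S` is a Zariski dense subset of `T`: it is contained in `T`, and every polynomial function
which vanishes on `S` vanishes on `T`. -/
def IsDenseIn {K : Type*} [Field K] (S T : Set (So6 K)) : Prop :=
  S ⊆ T ∧ ∀ g ∈ PolyOn K (So6 K), (∀ y ∈ S, g y = 0) → ∀ y ∈ T, g y = 0

theorem result (K : Type*) [Field K] [IsAlgClosed K] [CharZero K] :
    (∀ S : Set (So6 K),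
      (∃ (m d : ℕ) (p : FreeLieAlgebra K (Fin m)), IsHomogeneousLie d p ∧
        S = lieImage (So6 K) p) ↔
      ((0 : So6 K) ∈ S ∧ (∀ (t : K), ∀ x ∈ S, t • x ∈ S) ∧
        (∀ φ : So6 K ≃ₗ⁅K⁆ So6 K, ∀ x ∈ S, φ x ∈ S) ∧
        BoolComb (PolyOn K (So6 K) : Set (So6 K → K)) S ∧
        ∃ k ≤ 3, IsDenseIn S (rankSet K (2 * k)))) ∧
    (∀ k ≤ 3, ∃ (m d : ℕ) (p : FreeLieAlgebra K (Fin m)), IsHomogeneousLie d p ∧
      rankSet K (2 * k) = lieImage (So6 K) p) ∧
    (∀ (m : ℕ) (p : FreeLieAlgebra K (Fin m)), ∃ k ≤ 3,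
      IsDenseIn (lieImage (So6 K) p) (rankSet K (2 * k))) ∧
    (∀ S ⊆ rankSet K 2, (∃ (m : ℕ) (p : FreeLieAlgebra K (Fin m)), S = lieImage (So6 K) p) ↔
      (S = {0} ∨ ∃ T ⊆ ({0, 1} : Set ℕ), S = rankTwoSet K T)) :=
  SIX.main K

end Pool.Agent.Results.MP_d55432_al.OrthogonalSix
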