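import Pool.Agent.Lib.MP_d55432_al.H66.MultiCase

/-!
# Images of Lie polynomials on `sp₄`

Let `K` be an algebraically closed field of characteristic zero and `L = sp₄(K)`. For a set `T` of
natural numbers, `sqSet K T` consists of the `X` in `L` such that `X ^ 2` is a nonzero scalar, or
`X = 0`, or `X ^ 2 = 0` and the rank of `X` lies in `T`. The theorem determines

* all images of homogeneous Lie polynomials on `L`,
* all images of arbitrary Lie polynomials on `L` which are not Zariski dense,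
* all images of multilinear Lie polynomials on `L` which are not Zariski dense.
-/

namespace Pool.Agent.Results.MP_d55432_al.SymplecticFour

open Pool.Agent.Lib.MP_d55432_al Pool.Agent.Lib.MP_d55432_al.H66

/-- A subset of `L` is Zariski dense if a polynomial function on `L` which vanishes on it
vanishes on `L`. -/
def IsZariskiDense (K : Type*) [Field K] {L : Type*} [LieRing L] [LieAlgebra K L] (S : Set L) :
    Prop :=
  ∀ g ∈ PolyOn K L, (∀ y ∈ S, g y = 0) → ∀ y, g y = 0

theorem result {K : Type*} [Field K] [IsAlgClosed K] [CharZero K]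
    (S : Set (LieAlgebra.Symplectic.sp (Fin 2) K)) :
    ((∃ (m d : ℕ) (p : FreeLieAlgebra K (Fin m)), IsHomogeneousLie d p ∧
        S = lieImage (LieAlgebra.Symplectic.sp (Fin 2) K) p) ↔
      (S = {0} ∨ (∃ T ⊆ ({1, 2} : Set ℕ), S = sqSet K T) ∨
        ((0 : LieAlgebra.Symplectic.sp (Fin 2) K) ∈ S ∧ (∀ (t : K), ∀ x ∈ S, t • x ∈ S) ∧
          (∀ φ : LieAlgebra.Symplectic.sp (Fin 2) K ≃ₗ⁅K⁆ LieAlgebra.Symplectic.sp (Fin 2) K,
            ∀ x ∈ S, φ x ∈ S) ∧
          BoolComb (PolyOn K (LieAlgebra.Symplectic.sp (Fin 2) K) :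
            Set (LieAlgebra.Symplectic.sp (Fin 2) K → K)) S ∧ IsZariskiDense K S))) ∧
    (¬ IsZariskiDense K S →
      ((∃ (m : ℕ) (p : FreeLieAlgebra K (Fin m)),
          S = lieImage (LieAlgebra.Symplectic.sp (Fin 2) K) p) ↔
        (S = {0} ∨ ∃ T ⊆ ({1, 2} : Set ℕ), S = sqSet K T)) ∧
      ((∃ (m : ℕ) (p : FreeLieAlgebra K (Fin m)), IsMultilinearLie p ∧
          S = lieImage (LieAlgebra.Symplectic.sp (Fin 2) K) p) ↔
        (S = {0} ∨ S = sqSet K {1, 2}))) := by
  refine ⟨homogeneous_classification S, fun hnd => ⟨⟨?_, ?_⟩, ?_⟩⟩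
  · rintro ⟨m, p, rfl⟩
    exact nondense_image p hnd
  · rintro (rfl | ⟨T, hT, rfl⟩)
    · obtain ⟨m, _, p, _, hp⟩ := (homogeneous_classification (K := K) {0}).2 (Or.inl rfl)
      exact ⟨m, p, hp⟩
    · obtain ⟨m, _, p, _, hp⟩ := exists_homogeneous (K := K) T hT
      exact ⟨m, p, hp⟩
  · rw [sqSet_full]
    exact multilinear_nondense S hnd

end Pool.Agent.Results.MP_d55432_al.SymplecticFour
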